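import Mathlib
import Pool.Agent.J6H15.AC.Defs
import Pool.Agent.H586R3.CT8
import Pool.Agent.Helper272.Arn.J5759

/-!
# From the local theorem in sectors to the structure of the support

`p3 : LocalThm → MainThm`.
-/

set_option autoImplicit false

open MeasureTheory Polynomial Metric Set Filter Topology Complex
open Pool.Agent.H586R3.CT (CT exists_sep finite_zeros ae_integrable)
open Pool.Agent.J6H15.AC

namespace Pool.Agent.J6H42.AC

/-- near every point, off this point, the fibres of `Q` have constant degree and are separable -/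
lemma good_disk (Q : ℂ[X][X]) (hQ : Q ≠ 0) (R : ℂ[X]) (hR : R ≠ 0) (U V : ℂ[X][X])
    (hUV : U * Q + V * derivative Q = Polynomial.C R) (τ : ℂ) :
    ∃ c₀ : ℝ, (∀ z, 0 < ‖z - τ‖ → ‖z - τ‖ < Real.exp c₀ →
      (Q.map (evalRingHom z)).natDegree = Q.natDegree) ∧
     (∀ z, 0 < ‖z - τ‖ → ‖z - τ‖ < Real.exp c₀ → (Q.map (evalRingHom z)).Separable) := by
  set B : Set ℂ := {z : ℂ | R.eval z = 0} ∪ {z : ℂ | Q.leadingCoeff.eval z = 0} with hB
  have hBfin : B.Finite := (finite_zeros hR).union (finite_zeros (leadingCoeff_ne_zero.2 hQ))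
  have h1 : (B \ {τ})ᶜ ∈ 𝓝 τ :=
    (hBfin.subset sdiff_subset).isClosed.isOpen_compl.mem_nhds (by simp)
  obtain ⟨ε, hε, hball⟩ := Metric.mem_nhds_iff.1 h1
  have key : ∀ z, 0 < ‖z - τ‖ → ‖z - τ‖ < Real.exp (Real.log ε) → z ∉ B := by
    intro z hz0 hz1 hzB
    rw [Real.exp_log hε] at hz1
    refine hball (mem_ball_iff_norm.2 hz1) ⟨hzB, ?_⟩
    intro h
    rw [mem_singleton_iff] at h
    rw [h, sub_self, norm_zero] at hz0
    exact lt_irrefl _ hz0
  refine ⟨Real.log ε, fun z hz0 hz1 => ?_, fun z hz0 hz1 => ?_⟩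
  · have := key z hz0 hz1
    apply natDegree_map_of_leadingCoeff_ne_zero
    intro h
    exact this (Or.inr h)
  · have hz := key z hz0 hz1
    have hRz : R.eval z ≠ 0 := fun h => hz (Or.inl h)
    have h2 := congrArg (Polynomial.map (evalRingHom z)) hUV
    rw [Polynomial.map_add, Polynomial.map_mul, Polynomial.map_mul, Polynomial.map_C,
      ← derivative_map] at h2
    refine ⟨Polynomial.C (R.eval z)⁻¹ * U.map (evalRingHom z),
      Polynomial.C (R.eval z)⁻¹ * V.map (evalRingHom z), ?_⟩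
    calc _ = Polynomial.C (R.eval z)⁻¹ * (U.map (evalRingHom z) * Q.map (evalRingHom z) +
          V.map (evalRingHom z) * derivative (Q.map (evalRingHom z))) := by ring
      _ = Polynomial.C (R.eval z)⁻¹ * Polynomial.C (R.eval z) := by rw [h2]; rfl
      _ = 1 := by rw [← Polynomial.C_mul, inv_mul_cancel₀ hRz, Polynomial.C_1]

/-- the root functions as meromorphic functions of `(z - τ)^(1/N)` -/
lemma descent (Q : ℂ[X][X]) (hQ : Q ≠ 0) (R : ℂ[X]) (hR : R ≠ 0) (U V : ℂ[X][X])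
    (hUV : U * Q + V * derivative Q = Polynomial.C R) (τ : ℂ) :
    ∃ (N : ℕ) (q : Fin Q.natDegree → ℂ → ℂ) (c : ℝ), 0 < N ∧ (∀ j, MeromorphicAt (q j) 0) ∧
      (∀ w : ℂ, w.re < c → Function.Injective fun j => q j (Complex.exp (w / N))) ∧
      (∀ w : ℂ, w.re < c → ∀ v, Q.evalEval (τ + Complex.exp w) v = 0 →
        ∃ j, v = q j (Complex.exp (w / N))) := by
  obtain ⟨c₀, hdeg, hsep⟩ := good_disk Q hQ R hR U V hUV τ
  obtain ⟨N, α, hN, hα1, hα2, hα3, hα4, hα5⟩ := AR.J5759.puiseux Q τ c₀ hdeg hsep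
  obtain ⟨C, a, hCa⟩ := hα5 (c₀ - 1) (by linarith)
  have key : ∀ j, ∃ (q : ℂ → ℂ), MeromorphicAt q 0 ∧ ∃ c₁ < c₀, ∀ w : ℂ, w.re < c₁ →
      α j w = q (Complex.exp (w / N)) := by
    intro j
    have hlt : ∀ w : ℂ, w.re < c₀ - 1 → w.re < c₀ := fun w hw => by linarith
    rcases AR.J5759.laurent (c₀ - 1) N hN (α j) ((hα1 j).mono fun w hw => hlt w hw)
      (fun w hw => hα4 j w (hlt w hw)) C a (fun w hw => hCa j w hw) with
      h | ⟨l, G, hG, -, c₁, hc₁, hG1⟩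
    · exact ⟨fun _ => 0, MeromorphicAt.const 0 0, c₀ - 1, by linarith, fun w hw => h w hw⟩
    · refine ⟨fun ζ => ζ ^ l * G ζ, ((MeromorphicAt.id 0).fun_zpow l).fun_mul hG.meromorphicAt, c₁,
        by linarith, fun w hw => ?_⟩
      rw [hG1 w hw]
      congr 1
      rw [← Complex.exp_int_mul]
      congr 1
      ring
  choose q hq c hc hqc using key
  have hex : ∃ c' : ℝ, c' < c₀ ∧ ∀ j, c' ≤ c j := by
    have h1 : ∀ᶠ c' in (atBot : Filter ℝ), c' < c₀ ∧ ∀ j, c' ≤ c j :=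
      (eventually_lt_atBot c₀).and (eventually_all.2 fun j => eventually_le_atBot (c j))
    exact h1.exists
  obtain ⟨c', hc', hcc'⟩ := hex
  refine ⟨N, q, c', hN, hq, ?_, ?_⟩
  · intro w hw i j hij
    apply hα2 w (hw.trans hc')
    show α i w = α j w
    rw [hqc i w (lt_of_lt_of_le hw (hcc' i)), hqc j w (lt_of_lt_of_le hw (hcc' j))]
    exact hij
  · intro w hw v hv
    obtain ⟨j, hj⟩ := (hα3 w (hw.trans hc') v).1 hv
    exact ⟨j, by rw [hj, hqc j w (lt_of_lt_of_le hw (hcc' j))]⟩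

/-- similarities map arcs to arcs -/
lemma isArc_image {S : Set ℂ} (hS : IsArc S) {u : ℂ} (hu : u ≠ 0) (z₀ : ℂ) :
    IsArc ((fun z => z₀ + u * z) '' S) := by
  obtain ⟨a, b, γ, ha, hb, hγ, hinj, rfl⟩ := hS
  refine ⟨a, b, fun t => z₀ + u * γ t, ha, hb, ?_, ?_, ?_⟩
  · exact analyticOnNhd_const.add (analyticOnNhd_const.mul hγ)
  · intro s hs t ht hst
    apply hinj hs ht
    have h1 : z₀ + u * γ s = z₀ + u * γ t := hst
    exact mul_left_cancel₀ hu (add_left_cancel h1)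
  · rw [image_image]

/-- the transformed measure -/
noncomputable def mp (μ : Measure ℂ) (u z₀ : ℂ) : Measure ℂ :=
  (μ.restrict {z₀}ᶜ).map (fun z => u⁻¹ * (z - z₀))

instance (μ : Measure ℂ) [IsFiniteMeasure μ] (u z₀ : ℂ) : IsFiniteMeasure (mp μ u z₀) := by
  unfold mp; infer_instance

lemma measEmb {u : ℂ} (hu : u ≠ 0) (z₀ : ℂ) :
    MeasurableEmbedding (fun z : ℂ => u⁻¹ * (z - z₀)) := by
  have h := ((Homeomorph.subRight z₀).trans
    (Homeomorph.mulLeft₀ u⁻¹ (inv_ne_zero hu))).measurableEmbedding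
  exact h

lemma mp_apply (μ : Measure ℂ) {u : ℂ} (hu : u ≠ 0) (z₀ : ℂ) (A : Set ℂ) :
    mp μ u z₀ A = μ ((fun z => u⁻¹ * (z - z₀)) ⁻¹' A ∩ {z₀}ᶜ) := by
  rw [mp, (measEmb hu z₀).map_apply, Measure.restrict_apply' (measurableSet_singleton z₀).compl]

lemma mem_support_mp {μ : Measure ℂ} {u z₀ : ℂ} (hu : u ≠ 0) {z : ℂ}
    (hz : z ∈ (mp μ u z₀).support) : z₀ + u * z ∈ μ.support := by
  rw [Measure.mem_support_iff_forall] at hz ⊢
  intro W hW
  have h1 : (fun z => z₀ + u * z) ⁻¹' W ∈ 𝓝 z :=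
    (show Continuous (fun z => z₀ + u * z) by fun_prop).continuousAt.preimage_mem_nhds hW
  refine lt_of_lt_of_le (hz _ h1) ?_
  rw [mp_apply μ hu]
  apply measure_mono
  rintro x ⟨hx, -⟩
  have h2 : z₀ + u * (u⁻¹ * (x - z₀)) = x := by
    rw [mul_inv_cancel_left₀ hu]; ring
  simp only [mem_preimage, h2] at hx
  exact hx

lemma mem_support_mp' {μ : Measure ℂ} {u z₀ : ℂ} (hu : u ≠ 0) {z : ℂ} (hz : z ∈ μ.support)
    (hzz : z ≠ z₀) : u⁻¹ * (z - z₀) ∈ (mp μ u z₀).support := by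
  rw [Measure.mem_support_iff_forall] at hz ⊢
  intro W hW
  rw [mp_apply μ hu]
  apply hz
  apply inter_mem
  · exact (show Continuous (fun z => u⁻¹ * (z - z₀)) by
      fun_prop).continuousAt.preimage_mem_nhds hW
  · exact isOpen_compl_singleton.mem_nhds hzz

lemma CT_mp (μ : Measure ℂ) [IsFiniteMeasure μ] {u : ℂ} (hu : u ≠ 0) (z₀ z : ℂ)
    (hint : Integrable (fun ζ => (z₀ + u * z - ζ)⁻¹) μ) :
    CT (mp μ u z₀) z = u * (CT μ (z₀ + u * z) - μ.real {z₀} * (u * z)⁻¹) := by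
  unfold CT mp
  rw [(measEmb hu z₀).integral_map]
  have h1 : ∀ ζ : ℂ, (z - u⁻¹ * (ζ - z₀))⁻¹ = u * (z₀ + u * z - ζ)⁻¹ := by
    intro ζ
    have h2 : z - u⁻¹ * (ζ - z₀) = u⁻¹ * (z₀ + u * z - ζ) := by
      field_simp
      ring
    rw [h2, mul_inv, inv_inv]
  simp only [h1]
  rw [integral_const_mul]
  congr 1
  have h3 := integral_add_compl (measurableSet_singleton z₀) hint
  rw [integral_singleton] at h3
  rw [← h3]
  simp only [Complex.real_smul]
  have h4 : z₀ + u * z - z₀ = u * z := by ring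
  rw [h4]
  ring

/-- rotations and translations preserve null sets -/
lemma ae_comp {p : ℂ → Prop} (hp : ∀ᵐ z : ℂ, p z) (θ : ℝ) (z₀ : ℂ) :
    ∀ᵐ z : ℂ, p (z₀ + Complex.exp (θ * I) * z) := by
  have h1 : ∀ᵐ z : ℂ, p (z₀ + z) :=
    (measurePreserving_add_left (volume : Measure ℂ) z₀).quasiMeasurePreserving.ae hp
  have h2 := (rotation (Circle.exp θ)).measurePreserving.quasiMeasurePreserving.ae h1
  filter_upwards [h2] with z hz
  simpa [rotation_apply, Circle.coe_exp] using hz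

lemma rt_pow {N : ℕ} (hN : 0 < N) {z : ℂ} (hz : z ≠ 0) : rt N z ^ N = z := by
  unfold rt
  rw [← Complex.exp_nat_mul]
  have hN' : (N : ℂ) ≠ 0 := by exact_mod_cast hN.ne'
  rw [mul_div_cancel₀ _ hN', Complex.exp_log hz]

/-- the local data at `z₀` in the direction `θ` -/
theorem data_of (μ : Measure ℂ) [IsFiniteMeasure μ] (Q : ℂ[X][X])
    (hQ : ∀ᵐ z : ℂ, Q.evalEval z (CT μ z) = 0) (z₀ : ℂ) {N : ℕ} (hN : 0 < N)
    (q : Fin Q.natDegree → ℂ → ℂ) (c : ℝ) (hmer : ∀ j, MeromorphicAt (q j) 0)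
    (hinj : ∀ w : ℂ, w.re < c → Function.Injective fun j => q j (Complex.exp (w / N)))
    (hval : ∀ w : ℂ, w.re < c → ∀ v, Q.evalEval (z₀ + Complex.exp w) v = 0 →
        ∃ j, v = q j (Complex.exp (w / N))) (θ : ℝ) :
    Data (Fin Q.natDegree) (mp μ (Complex.exp (θ * I)) z₀) N
      (fun j ζ => Complex.exp (θ * I) * ζ ^ N * q j (Complex.exp (θ * I / N) * ζ) - μ.real {z₀})
      1 (Real.exp c) := by
  have hu : Complex.exp (θ * I) ≠ 0 := Complex.exp_ne_zero _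
  have hN' : (N : ℂ) ≠ 0 := by exact_mod_cast hN.ne'
  have hNr : (0 : ℝ) < N := by exact_mod_cast hN
  constructor
  · exact hN
  · rw [mp_apply μ hu]
    have h1 : (fun z : ℂ => (Complex.exp (θ * I))⁻¹ * (z - z₀)) ⁻¹' {0} ∩ {z₀}ᶜ = ∅ := by
      ext x
      simp only [mem_inter_iff, mem_preimage, mem_singleton_iff, mul_eq_zero, inv_eq_zero, hu,
        false_or, mem_compl_iff, mem_empty_iff_false, iff_false, not_and, not_not]
      intro h
      exact sub_eq_zero.1 h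
    rw [h1, measure_empty]
  · intro j
    have h1 : MeromorphicAt (fun ζ : ℂ => q j (Complex.exp (θ * I / N) * ζ)) 0 := by
      have h2 : AnalyticAt ℂ (fun ζ : ℂ => Complex.exp (θ * I / N) * ζ) 0 := by fun_prop
      have h3 : MeromorphicAt (q j) (Complex.exp (θ * I / N) * 0) := by
        rw [mul_zero]; exact hmer j
      exact h3.comp_analyticAt h2
    have h4 : MeromorphicAt (fun ζ : ℂ => Complex.exp (θ * I) * ζ ^ N) 0 :=
      (show AnalyticAt ℂ (fun ζ : ℂ => Complex.exp (θ * I) * ζ ^ N) 0 by fun_prop).meromorphicAt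
    exact (h4.fun_mul h1).fun_sub (MeromorphicAt.const _ 0)
  · intro i j hij
    rw [eventually_nhdsWithin_iff]
    have h1 : ∀ᶠ ζ : ℂ in 𝓝 0, ‖ζ‖ < Real.exp (c / N) := by
      have h2 : Tendsto (fun ζ : ℂ => ‖ζ‖) (𝓝 0) (𝓝 0) := by
        simpa using (continuous_norm (E := ℂ)).tendsto 0
      exact h2.eventually_lt_const (Real.exp_pos _)
    filter_upwards [h1] with ζ hζ hζ0
    have hζ0 : ζ ≠ 0 := hζ0
    have hnorm : ‖Complex.exp (θ * I / N) * ζ‖ = ‖ζ‖ := by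
      rw [norm_mul]
      have h3 : Complex.exp (θ * I / N) = Complex.exp (((θ / N : ℝ) : ℂ) * I) := by
        congr 1; push_cast; ring
      rw [h3, Complex.norm_exp_ofReal_mul_I, one_mul]
    have hne : Complex.exp (θ * I / N) * ζ ≠ 0 := mul_ne_zero (Complex.exp_ne_zero _) hζ0
    have hw : (N * Complex.log (Complex.exp (θ * I / N) * ζ) : ℂ).re < c := by
      have h4 : ∀ X : ℂ, ((N : ℂ) * Complex.log X).re = N * Real.log ‖X‖ := by
        intro X
        rw [← Complex.ofReal_natCast, Complex.re_ofReal_mul, Complex.log_re]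
      rw [h4, hnorm]
      have h5 : Real.log ‖ζ‖ < c / N := by
        rw [Real.log_lt_iff_lt_exp (norm_pos_iff.2 hζ0)]
        exact hζ
      calc (N : ℝ) * Real.log ‖ζ‖ < N * (c / N) := by
            exact mul_lt_mul_of_pos_left h5 hNr
        _ = c := by field_simp
    have h6 := hinj _ hw
    rw [mul_div_cancel_left₀ _ hN', Complex.exp_log hne] at h6
    intro h7
    apply hij
    apply h6
    have h8 : Complex.exp (θ * I) * ζ ^ N ≠ 0 := mul_ne_zero hu (pow_ne_zero _ hζ0)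
    exact mul_left_cancel₀ h8 (sub_left_injective h7)
  · exact one_pos
  · exact Real.exp_pos _
  · have h1 := ae_comp hQ θ z₀
    have h2 := ae_comp (ae_integrable μ) θ z₀
    filter_upwards [h1, h2] with z hz1 hz2 hz
    obtain ⟨hz3, hz4, -⟩ := hz
    have hz0 : z ≠ 0 := norm_pos_iff.1 hz3
    have hexp : Complex.exp (Complex.log z + θ * I) = Complex.exp (θ * I) * z := by
      rw [Complex.exp_add, Complex.exp_log hz0, mul_comm]
    have hre : (Complex.log z + θ * I).re < c := by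
      rw [Complex.add_re, Complex.log_re, Complex.re_ofReal_mul, Complex.I_re, mul_zero, add_zero,
        Real.log_lt_iff_lt_exp hz3]
      exact hz4
    obtain ⟨j, hj⟩ := hval _ hre (CT μ (z₀ + Complex.exp (θ * I) * z)) (by rw [hexp]; exact hz1)
    refine ⟨j, ?_⟩
    have hrt : Complex.exp (θ * I / N) * rt N z = Complex.exp ((Complex.log z + θ * I) / N) := by
      unfold rt
      rw [← Complex.exp_add]
      congr 1
      ring
    simp only [hrt, rt_pow hN hz0, ← hj]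
    rw [CT_mp μ hu z₀ z hz2]
    field_simp

/-- the angle of a rotated point -/
lemma arg_rot {z : ℂ} (hz : z ≠ 0) {θ : ℝ} (h : |Complex.arg z - θ| < Real.pi) :
    Complex.arg ((Complex.exp (θ * I))⁻¹ * z) = Complex.arg z - θ := by
  have h1 : (Complex.exp (θ * I))⁻¹ * z =
      ((‖z‖ : ℝ) : ℂ) * Complex.exp (((Complex.arg z - θ : ℝ) : ℂ) * I) := by
    conv_lhs => rw [← Complex.norm_mul_exp_arg_mul_I z]
    rw [← Complex.exp_neg, mul_left_comm, ← Complex.exp_add]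
    congr 2
    push_cast
    ring
  rw [h1, Complex.arg_real_mul _ (norm_pos_iff.2 hz), Complex.arg_exp_mul_I,
    toIocMod_eq_self]
  rw [abs_lt] at h
  constructor
  · linarith [h.1]
  · linarith [h.2]

/-- the structure of the support near a point -/
theorem local_at (hL : LocalThm) (μ : Measure ℂ) [IsFiniteMeasure μ] (Q : ℂ[X][X]) (hQ0 : Q ≠ 0)
    (R : ℂ[X]) (hR : R ≠ 0) (U V : ℂ[X][X]) (hUV : U * Q + V * derivative Q = Polynomial.C R)
    (hQ : ∀ᵐ z : ℂ, Q.evalEval z (CT μ z) = 0) (z₀ : ℂ) :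
    ∃ r > 0, ∃ 𝒜 : Set (Set ℂ), 𝒜.Finite ∧
      (∀ S ∈ 𝒜, IsArc S ∧ z₀ ∈ S ∧ S ⊆ μ.support) ∧
      ∀ z ∈ μ.support, z ∈ ball z₀ r → z ≠ z₀ → ∃ S ∈ 𝒜, z ∈ S := by
  obtain ⟨N, q, c, hN, hmer, hinj, hval⟩ := descent Q hQ0 R hR U V hUV z₀
  have hloc : ∀ θ : ℝ, ∃ δ' > 0, ∃ r' > 0, ∃ 𝒜 : Set (Set ℂ), 𝒜.Finite ∧
      (∀ S ∈ 𝒜, IsArc S ∧ (0 : ℂ) ∈ S ∧ S ⊆ (mp μ (Complex.exp (θ * I)) z₀).support) ∧
      (mp μ (Complex.exp (θ * I)) z₀).support ∩ Sec δ' r' ⊆ ⋃₀ 𝒜 := fun θ =>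
    hL (Fin Q.natDegree) (mp μ (Complex.exp (θ * I)) z₀) N _ 1 (Real.exp c)
      (data_of μ Q hQ z₀ hN q c hmer hinj hval θ)
  choose δ hδ r hr 𝒜 hfin h𝒜 hcov using hloc
  obtain ⟨t, -, ht⟩ := (isCompact_Icc (a := -Real.pi) (b := Real.pi)).elim_nhds_subcover
    (fun θ => ball θ (min (δ θ) Real.pi))
    (fun θ _ => ball_mem_nhds θ (lt_min (hδ θ) Real.pi_pos))
  have hr' : ∃ r₀ > 0, ∀ θ ∈ t, r₀ ≤ r θ := by
    have h1 : ∀ᶠ r₀ in 𝓝[>] (0 : ℝ), 0 < r₀ ∧ ∀ θ ∈ t, r₀ ≤ r θ := by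
      refine Filter.Eventually.and self_mem_nhdsWithin ?_
      rw [Finset.eventually_all]
      intro θ _
      have h2 : ∀ᶠ r₀ in 𝓝 (0 : ℝ), r₀ < r θ := eventually_lt_nhds (hr θ)
      exact (h2.filter_mono nhdsWithin_le_nhds).mono fun x hx => hx.le
    exact h1.exists
  obtain ⟨r₀, hr₀, hr₀'⟩ := hr'
  refine ⟨r₀, hr₀, ⋃ θ ∈ t, (fun S => (fun z => z₀ + Complex.exp (θ * I) * z) '' S) '' 𝒜 θ,
    ?_, ?_, ?_⟩
  · exact Set.Finite.biUnion t.finite_toSet fun θ _ => (hfin θ).image _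
  · intro S hS
    simp only [mem_iUnion, mem_image] at hS
    obtain ⟨θ, -, S', hS', rfl⟩ := hS
    obtain ⟨h1, h2, h3⟩ := h𝒜 θ S' hS'
    refine ⟨isArc_image h1 (Complex.exp_ne_zero _) z₀, ⟨0, h2, by simp⟩, ?_⟩
    rintro _ ⟨x, hx, rfl⟩
    exact mem_support_mp (Complex.exp_ne_zero _) (h3 hx)
  · intro z hz hzb hzz
    have hsub : z - z₀ ≠ 0 := sub_ne_zero.2 hzz
    have harg : Complex.arg (z - z₀) ∈ Icc (-Real.pi) Real.pi :=
      ⟨(Complex.neg_pi_lt_arg _).le, Complex.arg_le_pi _⟩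
    have h1 := ht harg
    simp only [mem_iUnion, exists_prop] at h1
    obtain ⟨θ, hθ, h2⟩ := h1
    rw [mem_ball, Real.dist_eq, lt_min_iff] at h2
    have hu : Complex.exp (θ * I) ≠ 0 := Complex.exp_ne_zero _
    have hnorm : ‖(Complex.exp (θ * I))⁻¹ * (z - z₀)‖ = ‖z - z₀‖ := by
      rw [norm_mul, norm_inv, Complex.norm_exp_ofReal_mul_I, inv_one, one_mul]
    have hsec : (Complex.exp (θ * I))⁻¹ * (z - z₀) ∈ Sec (δ θ) (r θ) := by
      refine ⟨?_, ?_, ?_⟩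
      · rw [hnorm]; exact norm_pos_iff.2 hsub
      · rw [hnorm]
        exact lt_of_lt_of_le (mem_ball_iff_norm.1 hzb) (hr₀' θ hθ)
      · rw [arg_rot hsub h2.2]
        exact h2.1
    obtain ⟨S, hS, hzS⟩ := hcov θ ⟨mem_support_mp' hu hz hzz, hsec⟩
    refine ⟨(fun z => z₀ + Complex.exp (θ * I) * z) '' S, ?_, ?_⟩
    · simp only [mem_iUnion]
      exact ⟨θ, hθ, mem_image_of_mem _ hS⟩
    · refine ⟨_, hzS, ?_⟩
      show z₀ + Complex.exp (θ * I) * ((Complex.exp (θ * I))⁻¹ * (z - z₀)) = z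
      rw [mul_inv_cancel_left₀ hu]
      ring

/-- **(P3)** the assembly -/
theorem p3 : P3 := by
  intro hL μ _ hcomp P hP hCT
  obtain ⟨Q, hQ0, ⟨R, hR, U, V, hUV⟩, s, hs, hPQ⟩ := exists_sep P hP
  have hQ : ∀ᵐ z : ℂ, Q.evalEval z (CT μ z) = 0 := by
    have h1 : volume {z : ℂ | s.eval z = 0} = 0 := (finite_zeros hs).measure_zero _
    filter_upwards [hCT, compl_mem_ae_iff.2 h1] with z hz1 hz2 using hPQ z _ hz1 hz2
  have hloc := fun z₀ => local_at hL μ Q hQ0 R hR U V hUV hQ z₀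
  choose r hr 𝒜 hfin h𝒜 hcov using hloc
  obtain ⟨t, ht, htc⟩ := hcomp.elim_nhds_subcover (fun z => ball z (r z))
    (fun z _ => ball_mem_nhds z (hr z))
  refine ⟨⋃ z ∈ t, 𝒜 z, {z | z ∈ t ∧ 𝒜 z = ∅}, ?_, ?_, ?_, ?_, ?_⟩
  · exact Set.Finite.biUnion t.finite_toSet fun z _ => hfin z
  · exact t.finite_toSet.subset fun z hz => hz.1
  · intro S hS
    simp only [mem_iUnion, exists_prop] at hS
    obtain ⟨z, -, hS⟩ := hS
    exact (h𝒜 z S hS).1
  · apply Subset.antisymm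
    · intro z hz
      have h1 := htc hz
      simp only [mem_iUnion, exists_prop] at h1
      obtain ⟨x, hx, hzx⟩ := h1
      by_cases hzz : z = x
      · subst hzz
        rcases (𝒜 z).eq_empty_or_nonempty with h | ⟨S, hS⟩
        · exact Or.inr ⟨hx, h⟩
        · refine Or.inl ⟨S, ?_, (h𝒜 z S hS).2.1⟩
          simp only [mem_iUnion, exists_prop]
          exact ⟨z, hx, hS⟩
      · obtain ⟨S, hS, hzS⟩ := hcov x z hz hzx hzz
        refine Or.inl ⟨S, ?_, hzS⟩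
        simp only [mem_iUnion, exists_prop]
        exact ⟨x, hx, hS⟩
    · rintro z (⟨S, hS, hzS⟩ | ⟨hz, -⟩)
      · simp only [mem_iUnion, exists_prop] at hS
        obtain ⟨x, -, hS⟩ := hS
        exact (h𝒜 x S hS).2.2 hzS
      · exact ht z hz
  · rintro z ⟨hz, hz𝒜⟩
    refine ⟨r z, hr z, ?_⟩
    apply Subset.antisymm
    · rintro x ⟨hx, hxb⟩
      by_contra hne
      obtain ⟨S, hS, -⟩ := hcov z x hx hxb hne
      rw [hz𝒜] at hS
      exact hS
    · rintro x hx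
      rw [mem_singleton_iff] at hx
      subst hx
      exact ⟨ht x hz, mem_ball_self (hr x)⟩

end Pool.Agent.J6H42.AC
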