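import Mathlib
import Pool.Agent.J6H15.AC.Defs2

/-!
# Preparations for the reduction to the good case
-/

set_option autoImplicit false

open MeasureTheory Polynomial Metric Set Filter Topology Complex
open Pool.Agent.H586R3.CT (CT)
open Pool.Agent.J6H15.AC

namespace Pool.Agent.J6H42.AC

/-- a positive lower bound of finitely many positive numbers -/
lemma exists_pos_le {J : Type} [Finite J] (e : J → ℝ) (he : ∀ k, 0 < e k) :
    ∃ e₀ > 0, ∀ k, e₀ ≤ e k := by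
  have h1 : ∀ᶠ x in 𝓝[>] (0 : ℝ), 0 < x ∧ ∀ k, x ≤ e k := by
    refine Filter.Eventually.and self_mem_nhdsWithin ?_
    rw [eventually_all]
    intro k
    have h2 : ∀ᶠ x in 𝓝 (0 : ℝ), x < e k := eventually_lt_nhds (he k)
    exact (h2.filter_mono nhdsWithin_le_nhds).mono fun x hx => hx.le
  exact h1.exists

/-- the narrow sector about the positive axis in the plane of `z^(1/N)` -/
def Nar (ε : ℝ) : Set ℂ := {ζ | 0 < ‖ζ‖ ∧ ‖ζ‖ < ε ∧ |Complex.arg ζ| < ε}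

/-- sign of a meromorphic function in a narrow sector, with a lower bound -/
lemma sign_strong (g : ℂ → ℂ) (hg : MeromorphicAt g 0)
    (hg0 : ¬ ∀ᶠ ζ in 𝓝[≠] (0 : ℂ), g ζ = 0) :
    ∃ a : ℂ, a ≠ 0 ∧ ∀ u : ℂ, 0 < (u * a).re → ∃ ε > 0, ∃ κ > 0, ∀ ζ ∈ Nar ε,
      ∀ u' : ℂ, ‖u' - u‖ < ε → g ζ ≠ 0 ∧ κ * ‖g ζ‖ ≤ (u' * g ζ).re := by
  have h1 : meromorphicOrderAt g 0 ≠ ⊤ := by
    rw [Ne, meromorphicOrderAt_eq_top_iff]
    exact hg0
  rw [meromorphicOrderAt_ne_top_iff hg] at h1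
  obtain ⟨h, hh, hh0, hgh⟩ := h1
  set n := (meromorphicOrderAt g 0).untop₀ with hn
  refine ⟨h 0, hh0, ?_⟩
  intro u hu
  have ha : 0 < ‖h 0‖ := norm_pos_iff.2 hh0
  -- the continuous function
  have hF : ContinuousAt (fun q : ℂ × ℂ × ℝ => (q.1 * (Complex.exp (n * q.2.2 * I) * h q.2.1)).re)
      (u, 0, 0) := by
    have e1 : ContinuousAt (fun q : ℂ × ℂ × ℝ => h q.2.1) (u, 0, 0) :=
      ContinuousAt.comp (f := fun q : ℂ × ℂ × ℝ => q.2.1) (g := h) (x := (u, 0, 0))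
        hh.continuousAt (by fun_prop)
    exact Complex.continuous_re.continuousAt.comp (ContinuousAt.mul (by fun_prop)
      (ContinuousAt.mul (by fun_prop) e1))
  have hF0 : (u * (Complex.exp (n * ((0 : ℝ) : ℂ) * I) * h 0)).re = (u * h 0).re := by simp
  have hev1 : ∀ᶠ q : ℂ × ℂ × ℝ in 𝓝 (u, 0, 0),
      (u * h 0).re / 2 < (q.1 * (Complex.exp (n * q.2.2 * I) * h q.2.1)).re := by
    apply hF.eventually_const_lt
    show (u * h 0).re / 2 < (u * (Complex.exp (n * ((0 : ℝ) : ℂ) * I) * h 0)).re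
    rw [hF0]
    linarith
  have hev2 : ∀ᶠ ζ in 𝓝 (0 : ℂ), ‖h ζ‖ < 2 * ‖h 0‖ := by
    apply hh.continuousAt.norm.eventually_lt_const
    linarith
  have hgh : ∀ᶠ z in 𝓝[≠] (0 : ℂ), g z = (z - 0) ^ n • h z := hgh
  rw [eventually_nhdsWithin_iff] at hgh
  obtain ⟨ε₁, hε₁, h2⟩ := Metric.eventually_nhds_iff.1 hev1
  obtain ⟨ε₂, hε₂, h3⟩ := Metric.eventually_nhds_iff.1 (hev2.and hgh)
  refine ⟨min ε₁ ε₂, lt_min hε₁ hε₂, (u * h 0).re / (4 * ‖h 0‖), by positivity, ?_⟩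
  rintro ζ ⟨hζ0, hζ1, hζ2⟩ u' hu'
  have hζne : ζ ≠ 0 := norm_pos_iff.1 hζ0
  obtain ⟨h4, h5⟩ := h3 (y := ζ) (by
    rw [dist_zero_right]
    exact lt_of_lt_of_le hζ1 (min_le_right _ _))
  have h6 := h5 hζne
  have h7 := h2 (y := (u', ζ, Complex.arg ζ)) (by
    rw [Prod.dist_eq, Prod.dist_eq, max_lt_iff, max_lt_iff, dist_eq_norm, dist_zero_right,
      Real.dist_eq, sub_zero]
    exact ⟨lt_of_lt_of_le hu' (min_le_left _ _), lt_of_lt_of_le hζ1 (min_le_left _ _),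
      lt_of_lt_of_le hζ2 (min_le_left _ _)⟩)
  simp only at h7
  rw [sub_zero, smul_eq_mul] at h6
  have h8 : ζ ^ n = ((‖ζ‖ ^ n : ℝ) : ℂ) * Complex.exp (n * Complex.arg ζ * I) := by
    conv_lhs => rw [← Complex.norm_mul_exp_arg_mul_I ζ]
    rw [mul_zpow, ← Complex.exp_int_mul]
    push_cast
    congr 2
    ring
  have h9 : 0 < ‖ζ‖ ^ n := zpow_pos hζ0 n
  have h10 : (u' * g ζ).re = ‖ζ‖ ^ n * (u' * (Complex.exp (n * Complex.arg ζ * I) * h ζ)).re := by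
    rw [h6, h8, ← Complex.re_ofReal_mul]
    congr 1
    ring
  have h11 : ‖g ζ‖ = ‖ζ‖ ^ n * ‖h ζ‖ := by
    rw [h6, norm_mul, norm_zpow]
  have h12 : 0 < (u' * g ζ).re := by
    rw [h10]
    exact mul_pos h9 (by linarith)
  refine ⟨?_, ?_⟩
  · intro h13
    rw [h13, mul_zero, Complex.zero_re] at h12
    exact lt_irrefl _ h12
  · rw [h10, h11]
    have h14 : (u * h 0).re / (4 * ‖h 0‖) * ‖h ζ‖ ≤ (u * h 0).re / 2 := by
      rw [div_mul_eq_mul_div, div_le_iff₀ (by positivity)]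
      have := mul_le_mul_of_nonneg_left h4.le hu.le
      linarith
    calc (u * h 0).re / (4 * ‖h 0‖) * (‖ζ‖ ^ n * ‖h ζ‖)
        = ‖ζ‖ ^ n * ((u * h 0).re / (4 * ‖h 0‖) * ‖h ζ‖) := by ring
      _ ≤ ‖ζ‖ ^ n * (u' * (Complex.exp (n * Complex.arg ζ * I) * h ζ)).re := by
          apply mul_le_mul_of_nonneg_left _ h9.le
          linarith

/-- one direction for finitely many meromorphic functions -/
lemma sign_all {J : Type} [Finite J] (g : J → ℂ → ℂ) (hg : ∀ k, MeromorphicAt (g k) 0)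
    (hg0 : ∀ k, ¬ ∀ᶠ ζ in 𝓝[≠] (0 : ℂ), g k ζ = 0) :
    ∃ u : ℂ, ∃ ε > 0, ∃ κ > 0, ∀ k,
      (∀ ζ ∈ Nar ε, ∀ u' : ℂ, ‖u' - u‖ < ε → g k ζ ≠ 0 ∧ κ * ‖g k ζ‖ ≤ (u' * g k ζ).re) ∨
      (∀ ζ ∈ Nar ε, ∀ u' : ℂ, ‖u' - u‖ < ε → g k ζ ≠ 0 ∧ κ * ‖g k ζ‖ ≤ -(u' * g k ζ).re) := by
  choose a ha hsign using fun k => sign_strong (g k) (hg k) (hg0 k)
  have hev : ∀ᶠ τ : ℝ in 𝓝[>] 0, ∀ k, ((1 + τ * I) * a k).re ≠ 0 := by
    rw [eventually_all]
    intro k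
    have e1 : ∀ τ : ℝ, ((1 + τ * I) * a k).re = (a k).re - τ * (a k).im := by
      intro τ
      simp [Complex.add_re, Complex.mul_re]
    simp only [e1]
    by_cases h : (a k).re = 0
    · have h2 : (a k).im ≠ 0 := fun h3 => ha k (Complex.ext h h3)
      filter_upwards [self_mem_nhdsWithin] with τ hτ
      rw [h, zero_sub, neg_ne_zero]
      exact mul_ne_zero (ne_of_gt hτ) h2
    · have h2 : ContinuousAt (fun τ : ℝ => (a k).re - τ * (a k).im) 0 := by fun_prop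
      have h3 : ∀ᶠ τ : ℝ in 𝓝 0, (a k).re - τ * (a k).im ≠ 0 := h2.eventually_ne (by simpa using h)
      exact h3.filter_mono nhdsWithin_le_nhds
  obtain ⟨τ, hτ⟩ := hev.exists
  set u : ℂ := 1 + τ * I with hu
  have key : ∀ k, ∃ ε > 0, ∃ κ > 0,
      (∀ ζ ∈ Nar ε, ∀ u' : ℂ, ‖u' - u‖ < ε → g k ζ ≠ 0 ∧ κ * ‖g k ζ‖ ≤ (u' * g k ζ).re) ∨
      (∀ ζ ∈ Nar ε, ∀ u' : ℂ, ‖u' - u‖ < ε → g k ζ ≠ 0 ∧ κ * ‖g k ζ‖ ≤ -(u' * g k ζ).re) := by
    intro k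
    rcases lt_or_gt_of_ne (hτ k) with h | h
    · obtain ⟨ε, hε, κ, hκ, h1⟩ := hsign k (-u) (by rw [neg_mul, Complex.neg_re]; linarith)
      refine ⟨ε, hε, κ, hκ, Or.inr fun ζ hζ u' hu' => ?_⟩
      obtain ⟨h2, h3⟩ := h1 ζ hζ (-u') (by
        rw [← norm_neg]
        have : -(-u' - -u) = u' - u := by ring
        rw [this]
        exact hu')
      refine ⟨h2, ?_⟩
      rw [neg_mul, Complex.neg_re] at h3
      exact h3
    · obtain ⟨ε, hε, κ, hκ, h1⟩ := hsign k u h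
      exact ⟨ε, hε, κ, hκ, Or.inl h1⟩
  choose ε hε κ hκ hk using key
  obtain ⟨ε₀, hε₀, hε₁⟩ := exists_pos_le ε hε
  obtain ⟨κ₀, hκ₀, hκ₁⟩ := exists_pos_le κ hκ
  refine ⟨u, ε₀, hε₀, κ₀, hκ₀, fun k => ?_⟩
  have hN : ∀ ζ ∈ Nar ε₀, ζ ∈ Nar (ε k) := fun ζ hζ =>
    ⟨hζ.1, lt_of_lt_of_le hζ.2.1 (hε₁ k), lt_of_lt_of_le hζ.2.2 (hε₁ k)⟩
  rcases hk k with h | h
  · left
    intro ζ hζ u' hu'
    obtain ⟨h1, h2⟩ := h ζ (hN ζ hζ) u' (lt_of_lt_of_le hu' (hε₁ k))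
    exact ⟨h1, (mul_le_mul_of_nonneg_right (hκ₁ k) (norm_nonneg _)).trans h2⟩
  · right
    intro ζ hζ u' hu'
    obtain ⟨h1, h2⟩ := h ζ (hN ζ hζ) u' (lt_of_lt_of_le hu' (hε₁ k))
    exact ⟨h1, (mul_le_mul_of_nonneg_right (hκ₁ k) (norm_nonneg _)).trans h2⟩

/-! ### The root and the sectors -/

lemma rt_ne (N : ℕ) (z : ℂ) : rt N z ≠ 0 := Complex.exp_ne_zero _

lemma log_div_re (N : ℕ) (z : ℂ) : (Complex.log z / N).re = Real.log ‖z‖ / N := by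
  rw [← Complex.ofReal_natCast, Complex.div_ofReal_re, Complex.log_re]

lemma log_div_im (N : ℕ) (z : ℂ) : (Complex.log z / N).im = Complex.arg z / N := by
  rw [← Complex.ofReal_natCast, Complex.div_ofReal_im, Complex.log_im]

lemma norm_rt_lt {N : ℕ} (hN : 0 < N) {z : ℂ} (hz : 0 < ‖z‖) {ρ : ℝ} (hρ : 0 < ρ)
    (h : ‖z‖ < ρ ^ N) : ‖rt N z‖ < ρ := by
  have hNr : (0 : ℝ) < N := by exact_mod_cast hN
  unfold rt
  rw [Complex.norm_exp, log_div_re, ← Real.lt_log_iff_exp_lt hρ, div_lt_iff₀ hNr]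
  calc Real.log ‖z‖ < Real.log (ρ ^ N) := Real.log_lt_log hz h
    _ = Real.log ρ * N := by rw [Real.log_pow]; ring

lemma arg_rt {N : ℕ} (hN : 0 < N) (z : ℂ) : Complex.arg (rt N z) = Complex.arg z / N := by
  have hNr : (1 : ℝ) ≤ N := by exact_mod_cast hN
  have h1 : |Complex.arg z / N| ≤ |Complex.arg z| := by
    rw [abs_div, Nat.abs_cast]
    exact div_le_self (abs_nonneg _) hNr
  unfold rt
  rw [← Complex.log_im, Complex.log_exp, log_div_im]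
  · rw [log_div_im]
    rcases le_or_gt 0 (Complex.arg z) with h | h
    · have : 0 ≤ Complex.arg z / N := by positivity
      linarith [Real.pi_pos]
    · have h2 : Complex.arg z ≤ Complex.arg z / N := by
        rw [le_div_iff₀ (by linarith)]
        nlinarith
      linarith [Complex.neg_pi_lt_arg z]
  · rw [log_div_im]
    have h2 := le_abs_self (Complex.arg z / N)
    have h3 := Complex.abs_arg_le_pi z
    linarith

lemma rt_mem_Nar {N : ℕ} (hN : 0 < N) {z : ℂ} {ε : ℝ} (hε : 0 < ε) (hz : 0 < ‖z‖)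
    (h1 : ‖z‖ < ε ^ N) (h2 : |Complex.arg z| < ε) : rt N z ∈ Nar ε := by
  have hNr : (1 : ℝ) ≤ N := by exact_mod_cast hN
  refine ⟨norm_pos_iff.2 (rt_ne N z), norm_rt_lt hN hz hε h1, ?_⟩
  rw [arg_rt hN, abs_div, Nat.abs_cast]
  exact lt_of_le_of_lt (div_le_self (abs_nonneg _) hNr) h2

lemma differentiableAt_rt (N : ℕ) {z : ℂ} (hz : z ∈ slitPlane) : DifferentiableAt ℂ (rt N) z := by
  unfold rt
  exact ((Complex.differentiableAt_log hz).div_const _).cexp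

lemma sec_slit {δ r : ℝ} (hδ : δ ≤ Real.pi) {z : ℂ} (hz : z ∈ Sec δ r) : z ∈ slitPlane := by
  rw [Complex.mem_slitPlane_iff_arg]
  refine ⟨?_, norm_pos_iff.1 hz.1⟩
  intro h
  have := hz.2.2
  rw [h, abs_of_pos Real.pi_pos] at this
  linarith

lemma isOpen_Sec {δ r : ℝ} (hδ : δ ≤ Real.pi) : IsOpen (Sec δ r) := by
  have h1 : ContinuousOn (fun z : ℂ => |Complex.arg z|) slitPlane := by
    intro z hz
    exact (Complex.continuousAt_arg hz).abs.continuousWithinAt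
  have h2 := h1.isOpen_inter_preimage Complex.isOpen_slitPlane (isOpen_Iio (a := δ))
  have h3 : IsOpen {z : ℂ | 0 < ‖z‖ ∧ ‖z‖ < r} :=
    (isOpen_lt continuous_const continuous_norm).inter (isOpen_lt continuous_norm continuous_const)
  have h4 : Sec δ r = {z : ℂ | 0 < ‖z‖ ∧ ‖z‖ < r} ∩
      (slitPlane ∩ (fun z : ℂ => |Complex.arg z|) ⁻¹' Iio δ) := by
    ext z
    constructor
    · intro hz
      exact ⟨⟨hz.1, hz.2.1⟩, sec_slit hδ hz, hz.2.2⟩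
    · rintro ⟨h5, -, h6⟩
      exact ⟨h5.1, h5.2, h6⟩
  rw [h4]
  exact h3.inter h2

lemma sec_mono {δ r δ' r' : ℝ} (h1 : δ ≤ δ') (h2 : r ≤ r') : Sec δ r ⊆ Sec δ' r' :=
  fun _ hz => ⟨hz.1, lt_of_lt_of_le hz.2.1 h2, lt_of_lt_of_le hz.2.2 h1⟩

/-- moving a point in a sector -/
lemma sec_move {a b c : ℝ} (hac : a + c ≤ Real.pi) {z w : ℂ} (hz : z ∈ Sec a b) (hw : ‖w‖ ≤ c) :
    z * Complex.exp w ∈ Sec (a + c) (b * Real.exp c) := by
  have hz0 : z ≠ 0 := norm_pos_iff.1 hz.1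
  have hre : w.re ≤ c := (Complex.re_le_norm w).trans hw
  have him : |w.im| ≤ c := (Complex.abs_im_le_norm w).trans hw
  have h1 : z * Complex.exp w = Complex.exp (Complex.log z + w) := by
    rw [Complex.exp_add, Complex.exp_log hz0]
  have h2 : |Complex.arg z + w.im| < a + c :=
    lt_of_le_of_lt (abs_add_le _ _) (add_lt_add_of_lt_of_le hz.2.2 him)
  have harg : Complex.arg (z * Complex.exp w) = Complex.arg z + w.im := by
    rw [h1, ← Complex.log_im, Complex.log_exp]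
    · rw [Complex.add_im, Complex.log_im]
    · rw [Complex.add_im, Complex.log_im]
      rw [abs_lt] at h2
      linarith [h2.1]
    · rw [Complex.add_im, Complex.log_im]
      rw [abs_lt] at h2
      linarith [h2.2]
  refine ⟨norm_pos_iff.2 (mul_ne_zero hz0 (Complex.exp_ne_zero _)), ?_, by rw [harg]; exact h2⟩
  rw [norm_mul, Complex.norm_exp]
  exact mul_lt_mul hz.2.1 (Real.exp_le_exp.2 hre) (Real.exp_pos _) (hz.1.trans hz.2.1).le

end Pool.Agent.J6H42.AC
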