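import Mathlib
import Pool.Agent.J6H42.AC.P4a

/-!
# Good indices exist
-/

set_option autoImplicit false

open MeasureTheory Polynomial Metric Set Filter Topology Complex
open Pool.Agent.H586R3.CT (CT)
open Pool.Agent.J6H15.AC

namespace Pool.Agent.J6H42.AC

/-- near a point which is not an atom, there are good indices in every ball of relative size `κ` -/
lemma good_exists (hAct : ActThm) (h2s : P2s) {ι : Type} [Finite ι] (μ : Measure ℂ)
    [IsFiniteMeasure μ] (U : Set ℂ) (f : ι → ℂ → ℂ) (hS : Sys ι μ U f) (h0 : μ {0} = 0)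
    (G : Set ι) {c κ : ℝ} (hc : 0 < c) (hκ : 0 < κ)
    (hG : ∀ i, i ∉ G → ∀ w ∈ U, c ≤ ‖w * f i w‖) :
    ∃ r > 0, ∀ z q : ℂ, 0 < ‖z‖ → ‖z‖ < r → ‖q‖ ≤ 3 → ball (z * q) (κ * ‖z‖) ⊆ U →
      ∀ T : Set ι, (∀ w ∈ ball (z * q) (κ * ‖z‖), Act μ U f w ⊆ T) → ∃ i ∈ T, i ∈ G := by
  set C : ℝ := 3 + κ with hC
  have hCpos : 0 < C := by positivity
  set e : ℝ := c * (κ ^ 2 * Real.pi) / C ^ 2 with he
  have hepos : 0 < e := by have := Real.pi_pos; positivity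
  have h1 := (h2s μ h0).eventually_lt_const hepos
  rw [eventually_nhdsWithin_iff, Metric.eventually_nhds_iff] at h1
  obtain ⟨r₁, hr₁, h1⟩ := h1
  refine ⟨r₁ / C, by positivity, ?_⟩
  intro z q hz0 hz1 hq hU T hT
  by_contra hcon
  push Not at hcon
  have hs0 : 0 < C * ‖z‖ := by positivity
  have hs1 : C * ‖z‖ < r₁ := by
    rw [lt_div_iff₀ hCpos] at hz1
    linarith
  have h2 := h1 (y := C * ‖z‖) (by
    rw [Real.dist_eq, sub_zero, abs_of_pos hs0]
    exact hs1) hs0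
  have h3 := (hAct ι μ U f hS).2.2.1 (ball (z * q) (κ * ‖z‖)) T isOpen_ball hU hT
  have hsub : ball (z * q) (κ * ‖z‖) ⊆ ball 0 (C * ‖z‖) := by
    intro w hw
    rw [mem_ball_zero_iff]
    rw [mem_ball, dist_eq_norm] at hw
    calc ‖w‖ = ‖(w - z * q) + z * q‖ := by ring_nf
      _ ≤ ‖w - z * q‖ + ‖z * q‖ := norm_add_le _ _
      _ < κ * ‖z‖ + ‖z‖ * 3 := by
          rw [norm_mul]
          have := mul_le_mul_of_nonneg_left hq (norm_nonneg z)
          linarith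
      _ = C * ‖z‖ := by rw [hC]; ring
  have hint : IntegrableOn (fun w => ‖CT μ w‖) (ball 0 (C * ‖z‖)) :=
    (Pool.Agent.H586R3.CT.integrableOn_CT μ 0 (C * ‖z‖)).norm
  have hint2 : IntegrableOn (fun w => ‖CT μ w‖) (ball (z * q) (κ * ‖z‖)) := hint.mono_set hsub
  have h4 : ∫ w in ball (z * q) (κ * ‖z‖), c / (C * ‖z‖) ≤
      ∫ w in ball (z * q) (κ * ‖z‖), ‖CT μ w‖ := by
    refine setIntegral_mono_on_ae (integrableOn_const (by
      exact (measure_ball_lt_top (μ := volume)).ne)) hint2 measurableSet_ball ?_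
    filter_upwards [h3] with w hw hwb
    obtain ⟨i, hiT, hi⟩ := hw hwb
    have h5 := hG i (hcon i hiT) w (hU hwb)
    rw [← hi, norm_mul] at h5
    have h6 : ‖w‖ ≤ C * ‖z‖ := by
      have := hsub hwb
      rw [mem_ball_zero_iff] at this
      exact this.le
    rw [div_le_iff₀ hs0]
    calc c ≤ ‖w‖ * ‖CT μ w‖ := h5
      _ ≤ C * ‖z‖ * ‖CT μ w‖ := mul_le_mul_of_nonneg_right h6 (norm_nonneg _)
      _ = ‖CT μ w‖ * (C * ‖z‖) := by ring
  have h5 : ∫ w in ball (z * q) (κ * ‖z‖), ‖CT μ w‖ ≤ ∫ w in ball 0 (C * ‖z‖), ‖CT μ w‖ :=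
    setIntegral_mono_set hint (Eventually.of_forall fun w => norm_nonneg _)
      (LE.le.eventuallyLE hsub)
  have h6 : ∫ w in ball (z * q) (κ * ‖z‖), c / (C * ‖z‖) =
      (κ * ‖z‖) ^ 2 * Real.pi * (c / (C * ‖z‖)) := by
    rw [setIntegral_const, smul_eq_mul, Measure.real, Complex.volume_ball]
    congr 1
    rw [ENNReal.toReal_mul, ENNReal.toReal_pow, ENNReal.toReal_ofReal (by positivity)]
    rfl
  have h7 : e ≤ (C * ‖z‖)⁻¹ * ∫ w in ball 0 (C * ‖z‖), ‖CT μ w‖ := by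
    have h8 : (κ * ‖z‖) ^ 2 * Real.pi * (c / (C * ‖z‖)) ≤ ∫ w in ball 0 (C * ‖z‖), ‖CT μ w‖ := by
      rw [← h6]
      exact h4.trans h5
    calc e = (C * ‖z‖)⁻¹ * ((κ * ‖z‖) ^ 2 * Real.pi * (c / (C * ‖z‖))) := by
          rw [he]
          field_simp
      _ ≤ _ := mul_le_mul_of_nonneg_left h8 (by positivity)
  linarith

/-- local inverse of the exponential -/
lemma exp_local (v : ℂ) {η : ℝ} (hη : 0 < η) :
    ∃ κ > 0, ∀ w' : ℂ, ‖w' - Complex.exp v‖ < κ → ∃ v' : ℂ, ‖v' - v‖ < η ∧ w' = Complex.exp v' := by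
  have h1 : ContinuousAt (fun w' : ℂ => Complex.log (w' * Complex.exp (-v))) (Complex.exp v) := by
    apply ContinuousAt.clog
    · fun_prop
    · rw [← Complex.exp_add]
      simp
  have h2 : ContinuousAt (fun w' : ℂ => w' * Complex.exp (-v)) (Complex.exp v) := by fun_prop
  have h3 : Complex.exp v * Complex.exp (-v) = 1 := by rw [← Complex.exp_add]; simp
  have h4 : ∀ᶠ w' : ℂ in 𝓝 (Complex.exp v), ‖Complex.log (w' * Complex.exp (-v))‖ < η := by
    apply h1.norm.eventually_lt_const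
    show ‖Complex.log (Complex.exp v * Complex.exp (-v))‖ < η
    rw [h3, Complex.log_one, norm_zero]
    exact hη
  have h5 : ∀ᶠ w' : ℂ in 𝓝 (Complex.exp v), w' * Complex.exp (-v) ≠ 0 := by
    apply h2.eventually_ne
    rw [h3]
    exact one_ne_zero
  obtain ⟨κ, hκ, h6⟩ := Metric.eventually_nhds_iff.1 (h4.and h5)
  refine ⟨κ, hκ, fun w' hw' => ?_⟩
  obtain ⟨h7, h8⟩ := h6 (y := w') (by rwa [dist_eq_norm])
  refine ⟨v + Complex.log (w' * Complex.exp (-v)), by simpa using h7, ?_⟩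
  rw [Complex.exp_add, Complex.exp_log h8]
  rw [mul_comm w', ← mul_assoc, h3, one_mul]

/-- a meromorphic function not tending to `0` is bounded below -/
lemma bad_bound {p : ℂ → ℂ} (hp : MeromorphicAt p 0) (h : ¬ Tendsto p (𝓝[≠] 0) (𝓝 0)) :
    ∃ c > 0, ∀ᶠ ζ in 𝓝[≠] (0 : ℂ), c ≤ ‖p ζ‖ := by
  rw [tendsto_zero_iff_meromorphicOrderAt_pos hp, not_lt] at h
  rcases lt_or_eq_of_le h with h1 | h1
  · have h2 := (tendsto_cobounded_iff_meromorphicOrderAt_neg hp).2 h1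
    rw [← tendsto_norm_atTop_iff_cobounded] at h2
    exact ⟨1, one_pos, h2.eventually_ge_atTop 1⟩
  · obtain ⟨c, hc0, hc⟩ := (tendsto_ne_zero_iff_meromorphicOrderAt_eq_zero hp).2 h1
    have h2 : 0 < ‖c‖ := norm_pos_iff.2 hc0
    have h3 : ∀ᶠ ζ in 𝓝[≠] (0 : ℂ), ‖c‖ / 2 < ‖p ζ‖ := by
      apply hc.norm.eventually_const_lt
      linarith
    exact ⟨‖c‖ / 2, by positivity, h3.mono fun ζ hζ => hζ.le⟩

end Pool.Agent.J6H42.AC
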