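import Mathlib
import Pool.Agent.J6H42.AC.P4b

/-!
# The reduction to the good case
-/

set_option autoImplicit false

open MeasureTheory Polynomial Metric Set Filter Topology Complex
open Pool.Agent.H586R3.CT (CT)
open Pool.Agent.J6H15.AC

namespace Pool.Agent.J6H42.AC

/-- `a` is above `b` in the narrow sector, in all directions near `u` -/
def Gt (ε : ℝ) (u : ℂ) (a b : ℂ → ℂ) : Prop :=
  ∀ ζ ∈ Nar ε, ∀ u' : ℂ, ‖u' - u‖ < ε → 0 < (u' * (a ζ - b ζ)).re

lemma Gt.trans {ε : ℝ} {u : ℂ} {a b c : ℂ → ℂ} (h1 : Gt ε u a b) (h2 : Gt ε u b c) :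
    Gt ε u a c := by
  intro ζ hζ u' hu'
  have h3 := h1 ζ hζ u' hu'
  have h4 := h2 ζ hζ u' hu'
  have h5 : u' * (a ζ - c ζ) = u' * (a ζ - b ζ) + u' * (b ζ - c ζ) := by ring
  rw [h5, Complex.add_re]
  linarith

/-- moving along the spirals `t ↦ w exp (t s u')` -/
lemma move (hCone : ConeThm) {ι : Type} [Finite ι] (μ : Measure ℂ) [IsFiniteMeasure μ]
    (U : Set ℂ) (f : ι → ℂ → ℂ) (hS : Sys ι μ U f) (N : ℕ) (p : ι → ℂ → ℂ) {ε s : ℝ} (hs : 0 < s)
    (u : ℂ) (hU : ∀ z ∈ U, z ≠ 0 ∧ rt N z ∈ Nar ε) (hf : ∀ i, ∀ z, f i z = p i (rt N z) / z)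
    (htot : ∀ i j, i ≠ j → Gt ε u (p i) (p j) ∨ Gt ε u (p j) (p i))
    (w u' : ℂ) (hu' : ‖u' - u‖ < ε)
    (hw : ∀ t ∈ Icc (0 : ℝ) 1, w * Complex.exp (t * (s * u')) ∈ U)
    (i : ι) (hi : i ∈ Act μ U f w) :
    Act μ U f (w * Complex.exp (s * u')) ⊆ {k | k = i ∨ Gt ε u (p k) (p i)} := by
  have h1 := hCone ι μ U f hS {k | k = i ∨ Gt ε u (p k) (p i)} 0 1
    (fun t : ℝ => w * Complex.exp (t * (s * u')))
    (fun t : ℝ => w * (Complex.exp (t * (s * u')) * (1 * (s * u')))) one_pos hw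
    (by
      intro t _
      apply HasDerivAt.hasDerivWithinAt
      exact (((Complex.ofRealCLM.hasDerivAt (x := t)).mul_const (s * u')).cexp).const_mul w)
    (by
      intro t ht k hk l hl
      obtain ⟨h2, h3⟩ := hU _ (hw t ht)
      have hkl : Gt ε u (p k) (p l) := by
        have hl1 : l ≠ i := fun h => hl (Or.inl h)
        have hl2 : ¬ Gt ε u (p l) (p i) := fun h => hl (Or.inr h)
        have hl3 : Gt ε u (p i) (p l) := by
          rcases htot l i hl1 with h | h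
          · exact absurd h hl2
          · exact h
        rcases hk with hk | hk
        · rw [hk]; exact hl3
        · exact hk.trans hl3
      have h4 := hkl _ h3 u' hu'
      have h5 : w * (Complex.exp (t * (s * u')) * (1 * (s * u'))) *
          (f k (w * Complex.exp (t * (s * u'))) - f l (w * Complex.exp (t * (s * u')))) =
          s * (u' * (p k (rt N (w * Complex.exp (t * (s * u')))) -
            p l (rt N (w * Complex.exp (t * (s * u')))))) := by
        rw [hf, hf, ← sub_div]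
        set y := w * Complex.exp (t * (s * u')) with hy
        have h6 : w * (Complex.exp (t * (s * u')) * (1 * (s * u'))) = y * (s * u') := by
          rw [hy]; ring
        rw [h6]
        field_simp
      show 0 < (w * (Complex.exp (t * (s * u')) * (1 * (s * u'))) *
          (f k (w * Complex.exp (t * (s * u'))) - f l (w * Complex.exp (t * (s * u'))))).re
      rw [h5, Complex.re_ofReal_mul]
      exact mul_pos hs h4)
    ⟨i, Or.inl rfl, by simpa using hi⟩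
  simpa using h1

/-- data with good indices -/
lemma good_data {ι : Type} [Finite ι] (μ : Measure ℂ) (N : ℕ)
    (p : ι → ℂ → ℂ) (δ r δ' r' : ℝ) (hD : Data ι μ N p δ r) (hδ' : 0 < δ') (hr' : 0 < r')
    (G : Set ι) (hG : ∀ i ∈ G, Tendsto (p i) (𝓝[≠] 0) (𝓝 0))
    (hval : ∀ᵐ z : ℂ, z ∈ Sec δ' r' → ∃ i ∈ G, z * CT μ z = p i (rt N z)) :
    Data {i // i ∈ G} μ N (fun i => Function.update (p i) 0 0) δ' r' ∧
      ∀ i : {i // i ∈ G}, AnalyticAt ℂ (Function.update (p i) 0 0) 0 ∧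
        Function.update (p i) 0 0 0 = 0 := by
  have hev : ∀ i : ι, ∀ᶠ ζ in 𝓝[≠] (0 : ℂ), p i ζ = Function.update (p i) 0 0 ζ := by
    intro i
    filter_upwards [self_mem_nhdsWithin] with ζ hζ
    rw [Function.update_of_ne hζ]
  have hmero : ∀ i : ι, MeromorphicAt (Function.update (p i) 0 0) 0 := fun i =>
    (hD.mero i).congr (hev i)
  refine ⟨⟨hD.N_pos, hD.zero, fun i => hmero i, ?_, hδ', hr', ?_⟩, ?_⟩
  · intro i j hij
    filter_upwards [hD.ne i j (fun h => hij (Subtype.ext h)), hev i, hev j] with ζ h1 h2 h3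
    rw [← h2, ← h3]
    exact h1
  · filter_upwards [hval] with z hz hz'
    obtain ⟨i, hi, h1⟩ := hz hz'
    refine ⟨⟨i, hi⟩, ?_⟩
    simp only
    rw [Function.update_of_ne (rt_ne N z)]
    exact h1
  · intro i
    refine ⟨?_, Function.update_self _ _ _⟩
    apply (hmero i).analyticAt
    rw [continuousAt_update_same]
    exact hG i i.2

theorem p4 : P4 := by
  intro hAct hCone h2s hGood ι hfin μ hμ N p δ r hD
  classical
  have hN := hD.N_pos
  set G : Set ι := {i | Tendsto (p i) (𝓝[≠] 0) (𝓝 0)} with hGdef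
  -- the direction
  obtain ⟨u, ε, hε, κ, hκ, hsign⟩ := sign_all
    (J := {q : ι × ι // q.1 ≠ q.2} ⊕ {i : ι // i ∉ G})
    (Sum.elim (fun q ζ => p q.1.1 ζ - p q.1.2 ζ) (fun i => p i.1))
    (by
      rintro (q | i)
      · exact (hD.mero _).sub (hD.mero _)
      · exact hD.mero _)
    (by
      rintro (q | i) h
      · have h2 := hD.ne _ _ q.2
        obtain ⟨ζ, h3, h4⟩ := (h2.and h).exists
        exact h3 (sub_eq_zero.1 h4)
      · apply i.2
        have h2 : Tendsto (fun _ : ℂ => (0 : ℂ)) (𝓝[≠] 0) (𝓝 0) := tendsto_const_nhds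
        refine h2.congr' ?_
        filter_upwards [h] with ζ hζ
        exact hζ.symm)
  have htot : ∀ i j, i ≠ j → Gt ε u (p i) (p j) ∨ Gt ε u (p j) (p i) := by
    intro i j hij
    rcases hsign (Sum.inl ⟨(i, j), hij⟩) with h | h
    · left
      intro ζ hζ u' hu'
      obtain ⟨h1, h2⟩ := h ζ hζ u' hu'
      simp only [Sum.elim_inl] at h1 h2
      have : 0 < ‖p i ζ - p j ζ‖ := norm_pos_iff.2 h1
      exact lt_of_lt_of_le (mul_pos hκ this) h2
    · right
      intro ζ hζ u' hu'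
      obtain ⟨h1, h2⟩ := h ζ hζ u' hu'
      simp only [Sum.elim_inl] at h1 h2
      have : 0 < ‖p i ζ - p j ζ‖ := norm_pos_iff.2 h1
      have h3 : u' * (p j ζ - p i ζ) = -(u' * (p i ζ - p j ζ)) := by ring
      rw [h3, Complex.neg_re]
      exact lt_of_lt_of_le (mul_pos hκ this) h2
  -- the constant for the bad indices
  have hbad : ∃ c > 0, ∀ i, i ∉ G → ∀ᶠ ζ in 𝓝[≠] (0 : ℂ), c ≤ ‖p i ζ‖ := by
    have h1 : ∀ i, ∃ c > 0, i ∉ G → ∀ᶠ ζ in 𝓝[≠] (0 : ℂ), c ≤ ‖p i ζ‖ := by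
      intro i
      by_cases hi : i ∈ G
      · exact ⟨1, one_pos, fun h => absurd hi h⟩
      · obtain ⟨c, hc, h2⟩ := bad_bound (hD.mero i) hi
        exact ⟨c, hc, fun _ => h2⟩
    choose c hc h2 using h1
    obtain ⟨c₀, hc₀, h3⟩ := exists_pos_le c hc
    refine ⟨c₀, hc₀, fun i hi => ?_⟩
    filter_upwards [h2 i hi] with ζ hζ
    exact (h3 i).trans hζ
  obtain ⟨c, hc, hbad⟩ := hbad
  -- the punctured disc
  have hpd : ∃ ρ > 0, ∀ ζ : ℂ, 0 < ‖ζ‖ → ‖ζ‖ < ρ → (∀ i, AnalyticAt ℂ (p i) ζ) ∧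
      (∀ i j, i ≠ j → p i ζ ≠ p j ζ) ∧ ∀ i, i ∉ G → c ≤ ‖p i ζ‖ := by
    have h1 : ∀ᶠ ζ in 𝓝[≠] (0 : ℂ), ∀ i, AnalyticAt ℂ (p i) ζ := by
      rw [eventually_all]
      intro i
      exact (hD.mero i).eventually_analyticAt
    have h2 : ∀ᶠ ζ in 𝓝[≠] (0 : ℂ), ∀ i j, i ≠ j → p i ζ ≠ p j ζ := by
      rw [eventually_all]
      intro i
      rw [eventually_all]
      intro j
      by_cases hij : i = j
      · exact Eventually.of_forall fun _ h => absurd hij h
      · exact (hD.ne i j hij).mono fun _ h _ => h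
    have h3 : ∀ᶠ ζ in 𝓝[≠] (0 : ℂ), ∀ i, i ∉ G → c ≤ ‖p i ζ‖ := by
      rw [eventually_all]
      intro i
      by_cases hi : i ∈ G
      · exact Eventually.of_forall fun _ h => absurd hi h
      · exact (hbad i hi).mono fun _ h _ => h
    have h4 := h1.and (h2.and h3)
    rw [eventually_nhdsWithin_iff, Metric.eventually_nhds_iff] at h4
    obtain ⟨ρ, hρ, h4⟩ := h4
    exact ⟨ρ, hρ, fun ζ h5 h6 => h4 (y := ζ) (by rwa [dist_zero_right]) (norm_pos_iff.1 h5)⟩
  obtain ⟨ρ, hρ, hpd⟩ := hpd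
  set δ₀ : ℝ := min δ (min 1 ε) with hδ₀
  set r₀ : ℝ := min r (min (ρ ^ N) (ε ^ N)) with hr₀
  have hδ₀p : 0 < δ₀ := lt_min hD.δ_pos (lt_min one_pos hε)
  have hr₀p : 0 < r₀ := lt_min hD.r_pos (lt_min (pow_pos hρ N) (pow_pos hε N))
  have hδ₀1 : δ₀ ≤ 1 := (min_le_right _ _).trans (min_le_left _ _)
  have hδ₀ε : δ₀ ≤ ε := (min_le_right _ _).trans (min_le_right _ _)
  have hδ₀δ : δ₀ ≤ δ := min_le_left _ _
  have hr₀r : r₀ ≤ r := min_le_left _ _
  have hr₀ρ : r₀ ≤ ρ ^ N := (min_le_right _ _).trans (min_le_left _ _)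
  have hr₀ε : r₀ ≤ ε ^ N := (min_le_right _ _).trans (min_le_right _ _)
  have hπ : (1 : ℝ) ≤ Real.pi := by linarith [Real.pi_gt_three]
  set U : Set ℂ := Sec δ₀ r₀ with hUdef
  set f : ι → ℂ → ℂ := fun i z => p i (rt N z) / z with hf
  have hUop : IsOpen U := isOpen_Sec (hδ₀1.trans hπ)
  have hU0 : ∀ z ∈ U, z ≠ 0 ∧ rt N z ∈ Nar ε := by
    intro z hz
    exact ⟨norm_pos_iff.1 hz.1, rt_mem_Nar hN hε hz.1 (lt_of_lt_of_le hz.2.1 hr₀ε)
      (lt_of_lt_of_le hz.2.2 hδ₀ε)⟩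
  have hU1 : ∀ z ∈ U, (∀ i, AnalyticAt ℂ (p i) (rt N z)) ∧
      (∀ i j, i ≠ j → p i (rt N z) ≠ p j (rt N z)) ∧ ∀ i, i ∉ G → c ≤ ‖p i (rt N z)‖ := by
    intro z hz
    exact hpd _ (norm_pos_iff.2 (rt_ne N z)) (norm_rt_lt hN hz.1 hρ (lt_of_lt_of_le hz.2.1 hr₀ρ))
  have hmul : ∀ z ∈ U, ∀ i, z * f i z = p i (rt N z) := by
    intro z hz i
    rw [hf]
    exact mul_div_cancel₀ _ (hU0 z hz).1
  have hS : Sys ι μ U f := by
    refine ⟨hUop, ?_, ?_, ?_⟩
    · intro i z hz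
      apply DifferentiableAt.differentiableWithinAt
      have h1 : DifferentiableAt ℂ (rt N) z :=
        differentiableAt_rt N (sec_slit (hδ₀1.trans hπ) hz)
      have h2 : DifferentiableAt ℂ (fun z => p i (rt N z)) z :=
        DifferentiableAt.comp z ((hU1 z hz).1 i).differentiableAt h1
      exact h2.div differentiableAt_id (hU0 z hz).1
    · intro z hz i j hij h
      apply (hU1 z hz).2.1 i j hij
      rw [← hmul z hz i, ← hmul z hz j, h]
    · filter_upwards [hD.val] with z hz hzU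
      obtain ⟨i, hi⟩ := hz (sec_mono hδ₀δ hr₀r hzU)
      refine ⟨i, ?_⟩
      show CT μ z = p i (rt N z) / z
      rw [← hi, mul_div_cancel_left₀ _ (hU0 z hzU).1]
  -- the flow
  have huε : 0 < ‖u‖ + ε := by positivity
  set s : ℝ := δ₀ / 2 / (‖u‖ + ε) with hs
  have hsp : 0 < s := by positivity
  have hsu : ∀ u' : ℂ, ‖u' - u‖ < ε → ‖(s : ℂ) * u'‖ ≤ δ₀ / 2 := by
    intro u' hu'
    have h1 : ‖u'‖ ≤ ‖u‖ + ε := by
      have : ‖u'‖ ≤ ‖u' - u‖ + ‖u‖ := by
        calc ‖u'‖ = ‖(u' - u) + u‖ := by ring_nf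
          _ ≤ _ := norm_add_le _ _
      linarith
    rw [norm_mul, Complex.norm_real, Real.norm_of_nonneg hsp.le]
    calc s * ‖u'‖ ≤ s * (‖u‖ + ε) := mul_le_mul_of_nonneg_left h1 hsp.le
      _ = δ₀ / 2 := by rw [hs]; field_simp
  have hsu0 : ∀ u' : ℂ, ‖u' - u‖ < ε → ∀ t : ℝ, |t| ≤ 1 → ‖(t : ℂ) * (s * u')‖ ≤ δ₀ / 2 := by
    intro u' hu' t ht
    rw [norm_mul, Complex.norm_real, Real.norm_eq_abs]
    calc |t| * ‖(s : ℂ) * u'‖ ≤ 1 * (δ₀ / 2) :=
          mul_le_mul ht (hsu u' hu') (norm_nonneg _) zero_le_one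
      _ = δ₀ / 2 := one_mul _
  set V : Set ℂ := Sec (δ₀ / 2) (r₀ * Real.exp (-1)) with hV
  have hVU : ∀ z ∈ V, ∀ w : ℂ, ‖w‖ ≤ δ₀ / 2 → z * Complex.exp w ∈ U := by
    intro z hz w hw
    have h1 := sec_move (c := δ₀ / 2) (by linarith) hz hw
    refine sec_mono (by linarith) ?_ h1
    rw [mul_assoc, ← Real.exp_add]
    have h2 : Real.exp (-1 + δ₀ / 2) ≤ 1 := by
      rw [Real.exp_le_one_iff]
      linarith
    calc r₀ * Real.exp (-1 + δ₀ / 2) ≤ r₀ * 1 := mul_le_mul_of_nonneg_left h2 hr₀p.le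
      _ = r₀ := mul_one _
  -- moving up and down
  have hup : ∀ z ∈ V, ∀ j ∈ Act μ U f z, ∀ u' : ℂ, ‖u' - u‖ < ε →
      Act μ U f (z * Complex.exp (s * u')) ⊆ {k | k = j ∨ Gt ε u (p k) (p j)} := by
    intro z hz j hj u' hu'
    refine move hCone μ U f hS N p hsp u hU0 (fun i z => rfl) htot z u' hu' ?_ j hj
    intro t ht
    exact hVU z hz _ (hsu0 u' hu' t (by rw [abs_le]; constructor <;> linarith [ht.1, ht.2]))
  have hdown : ∀ z ∈ V, ∀ j ∈ Act μ U f z, ∀ u' : ℂ, ‖u' - u‖ < ε →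
      Act μ U f (z * Complex.exp (-(s * u'))) ⊆ {k | k = j ∨ Gt ε u (p j) (p k)} := by
    intro z hz j hj u' hu' k hk
    have hexp : ∀ t : ℝ, z * Complex.exp (-(s * u')) * Complex.exp (t * (s * u')) =
        z * Complex.exp (((t - 1 : ℝ) : ℂ) * (s * u')) := by
      intro t
      rw [mul_assoc, ← Complex.exp_add]
      congr 2
      push_cast
      ring
    have h1 := move hCone μ U f hS N p hsp u hU0 (fun i z => rfl) htot
      (z * Complex.exp (-(s * u'))) u' hu' (by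
        intro t ht
        rw [hexp]
        exact hVU z hz _ (hsu0 u' hu' (t - 1)
          (by rw [abs_le]; constructor <;> linarith [ht.1, ht.2]))) k hk
    have h2 : z * Complex.exp (-(s * u')) * Complex.exp (s * u') = z := by
      rw [mul_assoc, ← Complex.exp_add]
      simp
    rw [h2] at h1
    rcases h1 hj with h3 | h3
    · exact Or.inl h3.symm
    · exact Or.inr h3
  -- the balls
  obtain ⟨κ₁, hκ₁, hloc1⟩ := exp_local (s * u) (mul_pos hsp hε)
  obtain ⟨κ₂, hκ₂, hloc2⟩ := exp_local (-(s * u)) (mul_pos hsp hε)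
  set κ₃ : ℝ := min κ₁ κ₂ with hκ₃
  have hκ₃p : 0 < κ₃ := lt_min hκ₁ hκ₂
  have hsne : (s : ℂ) ≠ 0 := by exact_mod_cast hsp.ne'
  have hball1 : ∀ z ∈ V, ∀ w ∈ ball (z * Complex.exp (s * u)) (κ₃ * ‖z‖),
      ∃ u' : ℂ, ‖u' - u‖ < ε ∧ w = z * Complex.exp (s * u') := by
    intro z hz w hw
    have hz0 : z ≠ 0 := norm_pos_iff.1 hz.1
    rw [mem_ball, dist_eq_norm] at hw
    have h1 : ‖w / z - Complex.exp (s * u)‖ < κ₁ := by
      have h2 : w / z - Complex.exp (s * u) = (w - z * Complex.exp (s * u)) / z := by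
        field_simp
      rw [h2, norm_div, div_lt_iff₀ hz.1]
      exact lt_of_lt_of_le hw (mul_le_mul_of_nonneg_right (min_le_left _ _) (norm_nonneg _))
    obtain ⟨v', h3, h4⟩ := hloc1 _ h1
    refine ⟨v' / s, ?_, ?_⟩
    · have h5 : v' / s - u = (v' - s * u) / s := by field_simp
      rw [h5, norm_div, Complex.norm_real, Real.norm_of_nonneg hsp.le, div_lt_iff₀ hsp]
      linarith
    · rw [mul_div_cancel₀ _ hsne, ← h4, mul_div_cancel₀ _ hz0]
  have hball2 : ∀ z ∈ V, ∀ w ∈ ball (z * Complex.exp (-(s * u))) (κ₃ * ‖z‖),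
      ∃ u' : ℂ, ‖u' - u‖ < ε ∧ w = z * Complex.exp (-(s * u')) := by
    intro z hz w hw
    have hz0 : z ≠ 0 := norm_pos_iff.1 hz.1
    rw [mem_ball, dist_eq_norm] at hw
    have h1 : ‖w / z - Complex.exp (-(s * u))‖ < κ₂ := by
      have h2 : w / z - Complex.exp (-(s * u)) = (w - z * Complex.exp (-(s * u))) / z := by
        field_simp
      rw [h2, norm_div, div_lt_iff₀ hz.1]
      exact lt_of_lt_of_le hw (mul_le_mul_of_nonneg_right (min_le_right _ _) (norm_nonneg _))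
    obtain ⟨v', h3, h4⟩ := hloc2 _ h1
    refine ⟨-(v' / s), ?_, ?_⟩
    · have h5 : -(v' / s) - u = -((v' - -(s * u)) / s) := by field_simp; ring
      rw [h5, norm_neg, norm_div, Complex.norm_real, Real.norm_of_nonneg hsp.le, div_lt_iff₀ hsp]
      linarith
    · have h5 : -((s : ℂ) * -(v' / s)) = v' := by field_simp
      rw [h5, ← h4, mul_div_cancel₀ _ hz0]
  obtain ⟨r₂, hr₂, hgood⟩ := good_exists hAct h2s μ U f hS hD.zero G hc hκ₃p (by
    intro i hi w hw
    rw [hmul w hw]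
    exact (hU1 w hw).2.2 i hi)
  have hnorm3 : ∀ w : ℂ, ‖w‖ ≤ δ₀ / 2 → ‖Complex.exp w‖ ≤ 3 := by
    intro w hw
    rw [Complex.norm_exp]
    have h1 : w.re ≤ 1 := by linarith [Complex.re_le_norm w]
    calc Real.exp w.re ≤ Real.exp 1 := Real.exp_le_exp.2 h1
      _ ≤ 3 := by linarith [Real.exp_one_lt_d9]
  have huu : ‖u - u‖ < ε := by simpa using hε
  set r' : ℝ := min (r₀ * Real.exp (-1)) r₂ with hr'
  have hr'p : 0 < r' := lt_min (mul_pos hr₀p (Real.exp_pos _)) hr₂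
  have hV' : ∀ z ∈ Sec (δ₀ / 2) r', z ∈ V ∧ ‖z‖ < r₂ := by
    intro z hz
    exact ⟨sec_mono le_rfl (min_le_left _ _) hz, lt_of_lt_of_le hz.2.1 (min_le_right _ _)⟩
  have hO : Sec (δ₀ / 2) r' ⊆ U := by
    intro z hz
    have h1 := hVU z (hV' z hz).1 0 (by rw [norm_zero]; positivity)
    simpa using h1
  -- only good indices are active
  have hmain : ∀ z ∈ Sec (δ₀ / 2) r', Act μ U f z ⊆ G := by
    intro z hz j hj
    by_contra hjG
    obtain ⟨hzV, hzr⟩ := hV' z hz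
    obtain ⟨i, hi1, hiG⟩ := hgood z (Complex.exp (s * u)) hz.1 hzr (hnorm3 _ (hsu u huu))
      (by
        intro w hw
        obtain ⟨u', hu', h1⟩ := hball1 z hzV w hw
        rw [h1]
        exact hVU z hzV _ (hsu u' hu'))
      {k | k = j ∨ Gt ε u (p k) (p j)}
      (by
        intro w hw
        obtain ⟨u', hu', h1⟩ := hball1 z hzV w hw
        rw [h1]
        exact hup z hzV j hj u' hu')
    obtain ⟨i', hi1', hiG'⟩ := hgood z (Complex.exp (-(s * u))) hz.1 hzr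
      (hnorm3 _ (by rw [norm_neg]; exact hsu u huu))
      (by
        intro w hw
        obtain ⟨u', hu', h1⟩ := hball2 z hzV w hw
        rw [h1]
        exact hVU z hzV _ (by rw [norm_neg]; exact hsu u' hu'))
      {k | k = j ∨ Gt ε u (p j) (p k)}
      (by
        intro w hw
        obtain ⟨u', hu', h1⟩ := hball2 z hzV w hw
        rw [h1]
        exact hdown z hzV j hj u' hu')
    have hgt : Gt ε u (p i) (p j) := by
      rcases hi1 with h | h
      · rw [h] at hiG; exact absurd hiG hjG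
      · exact h
    have hgt' : Gt ε u (p j) (p i') := by
      rcases hi1' with h | h
      · rw [h] at hiG'; exact absurd hiG' hjG
      · exact h
    -- points on the positive axis
    have hx : ∀ᶠ x : ℝ in 𝓝[>] 0, (x : ℂ) ∈ Nar ε ∧ c ≤ ‖p j x‖ := by
      have h1 : ∀ᶠ x : ℝ in 𝓝[>] 0, x < min ε ρ := by
        exact (eventually_lt_nhds (lt_min hε hρ)).filter_mono nhdsWithin_le_nhds
      filter_upwards [h1, self_mem_nhdsWithin] with x hx1 hx0
      have hx0' : (0 : ℝ) < x := hx0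
      have hn : ‖(x : ℂ)‖ = x := by rw [Complex.norm_real, Real.norm_of_nonneg hx0'.le]
      refine ⟨⟨by rw [hn]; exact hx0', by rw [hn]; exact lt_of_lt_of_le hx1 (min_le_left _ _), ?_⟩,
        ?_⟩
      · rw [Complex.arg_ofReal_of_nonneg hx0'.le, abs_zero]
        exact hε
      · exact (hpd (x : ℂ) (by rw [hn]; exact hx0')
          (by rw [hn]; exact lt_of_lt_of_le hx1 (min_le_right _ _))).2.2 j hjG
    have hlim : ∀ k ∈ G, Tendsto (fun x : ℝ => (u * p k x).re) (𝓝[>] 0) (𝓝 0) := by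
      intro k hk
      have h1 : Tendsto (fun x : ℝ => (x : ℂ)) (𝓝[>] 0) (𝓝[≠] 0) := by
        rw [tendsto_nhdsWithin_iff]
        constructor
        · have : Tendsto (fun x : ℝ => (x : ℂ)) (𝓝 0) (𝓝 ((0 : ℝ) : ℂ)) :=
            Complex.continuous_ofReal.tendsto 0
          rw [Complex.ofReal_zero] at this
          exact this.mono_left nhdsWithin_le_nhds
        · filter_upwards [self_mem_nhdsWithin] with x hx0
          have hx0' : (0 : ℝ) < x := hx0
          show (x : ℂ) ≠ 0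
          exact_mod_cast hx0'.ne'
      have h2 : Tendsto (p k) (𝓝[≠] 0) (𝓝 0) := hk
      have h3 := (h2.comp h1).const_mul u
      have h4 := (Complex.continuous_re.tendsto _).comp h3
      simpa [Function.comp_def] using h4
    rcases hsign (Sum.inr ⟨j, hjG⟩) with h | h
    · -- the positive case
      have h1 := (hlim i hiG).eventually_lt_const (mul_pos hκ hc)
      obtain ⟨x, ⟨hx1, hx2⟩, hx3⟩ := (hx.and h1).exists
      obtain ⟨h2, h3⟩ := h x hx1 u huu
      have h4 := hgt x hx1 u huu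
      simp only [Sum.elim_inr] at h2 h3
      rw [mul_sub, Complex.sub_re] at h4
      have h5 : κ * c ≤ κ * ‖p j x‖ := mul_le_mul_of_nonneg_left hx2 hκ.le
      linarith
    · have h1 := (hlim i' hiG').eventually_const_lt (neg_lt_zero.2 (mul_pos hκ hc))
      obtain ⟨x, ⟨hx1, hx2⟩, hx3⟩ := (hx.and h1).exists
      obtain ⟨h2, h3⟩ := h x hx1 u huu
      have h4 := hgt' x hx1 u huu
      simp only [Sum.elim_inr] at h2 h3
      rw [mul_sub, Complex.sub_re] at h4
      have h5 : κ * c ≤ κ * ‖p j x‖ := mul_le_mul_of_nonneg_left hx2 hκ.le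
      linarith
  -- conclusion
  have hδ2 : δ₀ / 2 ≤ Real.pi := by linarith
  have h1 := (hAct ι μ U f hS).2.2.1 (Sec (δ₀ / 2) r') G (isOpen_Sec hδ2) hO hmain
  obtain ⟨hD', hA⟩ := good_data μ N p δ r (δ₀ / 2) r' hD (by positivity) hr'p G
    (fun i hi => hi) (by
      filter_upwards [h1] with z hz hz'
      obtain ⟨i, hi, h2⟩ := hz hz'
      refine ⟨i, hi, ?_⟩
      rw [h2, hmul z (hO hz')])
  exact hGood {i // i ∈ G} μ N _ (δ₀ / 2) r' hD' hA

end Pool.Agent.J6H42.AC
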