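import Mathlib
import Pool.Agent.J6H42.AC.P4a

/-!
# The sign lemma
-/

set_option autoImplicit false

open MeasureTheory Polynomial Metric Set Filter Topology Complex
open Pool.Agent.J6H15.AC

namespace Pool.Agent.J6H42.AC

theorem signLem : SignLem := by
  intro g hg hg0
  obtain ⟨a, ha, h⟩ := sign_strong g hg hg0
  refine ⟨a, ha, fun u hu => ?_⟩
  obtain ⟨ε, hε, κ, hκ, h1⟩ := h u hu
  refine ⟨ε, hε, fun ζ h2 h3 h4 u' hu' => ?_⟩
  obtain ⟨h5, h6⟩ := h1 ζ ⟨h2, h3, h4⟩ u' hu'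
  exact lt_of_lt_of_le (mul_pos hκ (norm_pos_iff.2 h5)) h6

end Pool.Agent.J6H42.AC
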